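import Mathlib
import Pool.Agent.Lib.MP_c25811_nt.St

/-!
# MP_c25811_nt, Q1: depth at most two or weight minus depth at most two; spanning for `k ≤ 5`
-/

set_option autoImplicit false

namespace Pool.Agent.Results.MP_c25811_nt.LowDepth

open Pool.Agent.MPc258

/-- Multiple Clausen values of depth at most two, and those with weight minus depth at most two,
are in the rational span of `S^o_{k,1}`; so `S^o_{k,k}` spans `C_k` for `k ≤ 5`. -/
theorem result :
    (∀ l : List ℕ, (∀ j ∈ l, 1 ≤ j) → (l.length ≤ 2 ∨ l.sum ≤ l.length + 2) →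
      ∃ v : ℂ, IsVal l v ∧ clp l.sum v ∈ Submodule.span ℚ (So l.sum 1)) ∧
    ∀ k ≤ 5, Submodule.span ℚ (So k k) = Ck k :=
  ⟨low_depth, low_weight'⟩

end Pool.Agent.Results.MP_c25811_nt.LowDepth
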