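import Mathlib
import Pool.Agent.Lib.MP_c25811_nt.St

/-!
# MP_c25811_nt, Q1: all members of the family `S^o_{k,k}` are in `C_k`
-/

set_option autoImplicit false

namespace Pool.Agent.Results.MP_c25811_nt.Members

open Pool.Agent.MPc258

/-- For every weight `k` all the numbers `π ^ m * SLs(k_1, ..., k_n)` with `n` odd, `k_i ≥ 2` and
`m + k_1 + ... + k_n = k` are rational linear combinations of multiple Clausen values of
weight `k`. -/
theorem result (k m : ℕ) (ks : List ℕ) (hodd : Odd ks.length) (hks : ∀ j ∈ ks, 2 ≤ j)
    (hk : m + ks.sum = k) : Real.pi ^ m * SLs ks ∈ Ck k := by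
  subst hk
  exact members m ks hodd hks

end Pool.Agent.Results.MP_c25811_nt.Members
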